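import Pool.Agent.Run7.h235.EM.BdeEq
import Pool.Agent.Q113.XM.Stm

/-!
# The star side of the Erdős matching conjecture with the structure of the extremal families
-/

set_option autoImplicit false

open Finset

namespace Pool.Agent.Run7.h235.EM

open Pool.Agent.W890.SF Pool.Agent.Q113.XM

/-- `S` meets all members of `F`. -/
def Cov {α : Type} (F : Finset (Finset α)) (S : Finset α) : Prop := ∀ e ∈ F, ¬ Disjoint e S

/-- The final step on the star side. -/
def S_SFNe : Prop := ∀ k : ℕ, 2 ≤ k → ∀ ξ : ℝ, 0 < ξ → ∃ γ : ℝ, 0 < γ ∧ ∃ n0 : ℕ,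
  ∀ n : ℕ, n0 ≤ n → ∀ F : Finset (Finset (Fin n)), Unif k F → ∀ s : ℕ,
    (k : ℝ) * (s + 1) ≤ (1 - ξ) * n →
    (s : ℝ) - γ * n ≤ ((univ.filter (fun v : Fin n =>
      (1 - γ) * (((n - 1).choose (k - 1) : ℕ) : ℝ) ≤ (dg F v : ℝ))).card : ℝ) →
    n.choose k - (n - s).choose k ≤ F.card → ¬ HasM F (s + 1) → ∃ S : Finset (Fin n), S.card = s ∧ Cov F S

theorem t_SFNe : S_EXT → S_SFNe := by
  intro h2 k hk ξ hξ0
  have hk0 : (0 : ℝ) < k := by exact_mod_cast (by omega : 0 < k)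
  have hk2 : (2 : ℝ) ≤ k := by exact_mod_cast hk
  have hk3 : (0 : ℝ) < (k : ℝ) ^ 3 := by positivity
  obtain ⟨δ, hδ, n2, H2⟩ := h2 k hk ξ hξ0
  obtain ⟨γ, hγ⟩ : ∃ γ : ℝ, γ = min δ (1 / (8 * (k : ℝ) ^ 3)) := ⟨_, rfl⟩
  have hγ0 : 0 < γ := by rw [hγ]; exact lt_min hδ (by positivity)
  have hγ1 : γ ≤ δ := by rw [hγ]; exact min_le_left _ _
  have hγ2 : γ ≤ 1 / (8 * (k : ℝ) ^ 3) := by rw [hγ]; exact min_le_right _ _
  refine ⟨γ, hγ0, max (8 * k ^ 3) n2, ?_⟩
  intro n hn F hF s hks hA hC hM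
  have m1 : 8 * k ^ 3 ≤ n := (le_max_left _ _).trans hn
  have m3 : n2 ≤ n := (le_max_right _ _).trans hn
  have m1' : 8 * (k : ℝ) ^ 3 ≤ n := by exact_mod_cast m1
  have hs0 : (0 : ℝ) ≤ s := Nat.cast_nonneg s
  obtain ⟨A, hAdef⟩ : ∃ A : Finset (Fin n), A = univ.filter (fun v : Fin n =>
      (1 - γ) * (((n - 1).choose (k - 1) : ℕ) : ℝ) ≤ (dg F v : ℝ)) := ⟨_, rfl⟩
  rw [← hAdef] at hA
  have hdeg : ∀ v ∈ A, (1 - δ) * (((n - 1).choose (k - 1) : ℕ) : ℝ) ≤ (dg F v : ℝ) := by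
    intro v hv
    rw [hAdef, mem_filter] at hv
    refine le_trans (mul_le_mul_of_nonneg_right ?_ (Nat.cast_nonneg _)) hv.2
    linarith
  by_cases hAs : s + 1 ≤ A.card
  · exfalso
    obtain ⟨A', hA', hAc⟩ := exists_subset_card_eq hAs
    have h4 := H2 (Fin n) (by rw [Fintype.card_fin]; exact m3) F hF A'
      (by rw [Fintype.card_fin]; exact fun v hv => hdeg v (hA' hv)) ∅ (empty_subset _)
      (fun e he => absurd he (notMem_empty _)) (fun e he => absurd he (notMem_empty _))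
      (by
        rw [Fintype.card_fin, hAc, card_empty]
        push_cast
        rw [add_zero]
        exact hks)
    rw [hAc, card_empty, add_zero] at h4
    exact hM h4
  push Not at hAs
  obtain ⟨b, hb⟩ : ∃ b : ℕ, A.card + b = s := ⟨s - A.card, by omega⟩
  have hbr : (A.card : ℝ) + b = s := by exact_mod_cast hb
  have hbn : (b : ℝ) ≤ 1 / (8 * (k : ℝ) ^ 3) * n := by
    have : γ * n ≤ 1 / (8 * (k : ℝ) ^ 3) * n := mul_le_mul_of_nonneg_right hγ2 (Nat.cast_nonneg n)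
    linarith
  have hs2 : 2 * s ≤ n := by
    have e1 : 2 * (s : ℝ) ≤ n := by nlinarith [mul_nonneg hξ0.le (Nat.cast_nonneg (α := ℝ) n)]
    exact_mod_cast e1
  have hUc : (univ \ A).card = n - A.card := by
    rw [card_sdiff_of_subset (subset_univ _), card_univ, Fintype.card_fin]
  have hbig : 2 * k ^ 3 * (b + 1) ≤ (univ \ A).card := by
    have e0 : A.card ≤ s := by omega
    have e1 : 2 * (k : ℝ) ^ 3 * (b + 1) ≤ n / 2 := by
      have e2 : (b : ℝ) * (8 * (k : ℝ) ^ 3) ≤ n := by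
        calc (b : ℝ) * (8 * (k : ℝ) ^ 3) ≤ 1 / (8 * (k : ℝ) ^ 3) * n * (8 * (k : ℝ) ^ 3) := by
              gcongr
          _ = (n : ℝ) := by field_simp
      nlinarith
    have e3 : 2 * (2 * k ^ 3 * (b + 1)) ≤ n := by
      have : 2 * (2 * (k : ℝ) ^ 3 * (b + 1)) ≤ n := by linarith
      exact_mod_cast this
    rw [hUc]
    omega
  have hno' : ¬ HasM (F.filter (fun e => Disjoint e A)) (b + 1) := by
    rintro ⟨M0, hM0, hM1, hM2⟩
    have h4 := H2 (Fin n) (by rw [Fintype.card_fin]; exact m3) F hF A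
      (by rw [Fintype.card_fin]; exact hdeg) M0 (hM0.trans (filter_subset _ _)) hM1
      (fun e he => (mem_filter.1 (hM0 he)).2)
      (by
        rw [Fintype.card_fin, hM2]
        push_cast
        rw [← add_assoc, hbr]
        exact hks)
    rw [hM2, ← add_assoc, hb] at h4
    exact hM h4
  have hsub : (univ \ A).card - b = n - s := by rw [hUc]; omega
  -- counting the edges which meet A
  have hcount : (F.filter (fun e => ¬ Disjoint e A)).card + (univ \ A).card.choose k ≤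
      n.choose k := by
    rw [← card_powersetCard k (univ \ A)]
    have hn' : n.choose k = (powersetCard k (univ : Finset (Fin n))).card := by
      rw [card_powersetCard, card_univ, Fintype.card_fin]
    rw [hn', ← card_union_of_disjoint]
    · apply card_le_card
      intro e he
      rw [mem_union, mem_filter, mem_powersetCard] at he
      rw [mem_powersetCard]
      rcases he with he | he
      · exact ⟨subset_univ _, hF e he.1⟩
      · exact ⟨subset_univ _, he.2⟩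
    · rw [disjoint_left]
      intro e he he'
      rw [mem_filter] at he
      rw [mem_powersetCard] at he'
      apply he.2
      rw [disjoint_left]
      intro v hv hvA
      exact (mem_sdiff.1 (he'.1 hv)).2 hvA
  have hsplit := card_filter_add_card_filter_not (s := F) (fun e => Disjoint e A)
  have hle : (n - s).choose k ≤ (univ \ A).card.choose k := by
    apply Nat.choose_le_choose
    rw [hUc]
    omega
  obtain ⟨j, rfl⟩ : ∃ j, k = j + 2 := ⟨k - 2, by omega⟩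
  obtain ⟨S0, hS0U, hS0c, hS0⟩ := bde_eq j (univ \ A) (F.filter (fun e => Disjoint e A)) b
    (fun e he => by
      rw [mem_filter] at he
      refine ⟨?_, hF e he.1⟩
      intro v hv
      rw [mem_sdiff]
      exact ⟨mem_univ _, fun hvA => (disjoint_left.1 he.2 hv hvA)⟩) hbig
    (by rw [hsub]; omega) hno'
  have hdj : Disjoint A S0 := by
    rw [disjoint_right]
    intro v hv
    exact (mem_sdiff.1 (hS0U hv)).2
  refine ⟨A ∪ S0, by rw [card_union_of_disjoint hdj, hS0c, hb], ?_⟩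
  intro e he hd
  rw [disjoint_union_right] at hd
  exact hS0 e (mem_filter.2 ⟨he, hd.1⟩) hd.2

/-- The extremal families for `n ≥ (k + 39/40) s`, `n` large. -/
def S_EMCe : Prop := ∀ k : ℕ, 2 ≤ k → ∃ n0 : ℕ, ∀ n : ℕ, n0 ≤ n → ∀ s : ℕ,
  (40 * k + 39) * s ≤ 40 * n → ∀ F : Finset (Finset (Fin n)), Unif k F →
  n.choose k - (n - s).choose k ≤ F.card → ¬ HasM F (s + 1) → ∃ S : Finset (Fin n), S.card = s ∧ Cov F S

theorem t_EMCe (h2 : S_SFNe) (h3 : S_DIC) : S_EMCe := by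
  intro k hk
  have hk0 : (0 : ℝ) < k := by exact_mod_cast (by omega : 0 < k)
  have hk2 : (2 : ℝ) ≤ k := by exact_mod_cast hk
  have hk3 : (0 : ℝ) < (k : ℝ) ^ 3 := by positivity
  obtain ⟨ξ, hξ⟩ : ∃ ξ : ℝ, ξ = 39 / (2 * (40 * (k : ℝ) + 39)) := ⟨_, rfl⟩
  have hξ0 : 0 < ξ := by rw [hξ]; positivity
  obtain ⟨γ, hγ0, n2, H2⟩ := h2 k hk ξ hξ0
  obtain ⟨n3, H3⟩ := h3 k hk (1 / (4 * (k : ℝ) ^ 3)) γ (by positivity) hγ0
  refine ⟨max (8 * k ^ 3) (max (2 * k * (40 * k + 39)) (max n2 n3)), ?_⟩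
  intro n hn s hsn F hF hC hM
  have m1 : 8 * k ^ 3 ≤ n := (le_max_left _ _).trans hn
  have m2 : 2 * k * (40 * k + 39) ≤ n :=
    ((le_max_left _ _).trans (le_max_right _ _)).trans hn
  have m3 : n2 ≤ n :=
    (((le_max_left _ _).trans (le_max_right _ _)).trans (le_max_right _ _)).trans hn
  have m4 : n3 ≤ n :=
    (((le_max_right _ _).trans (le_max_right _ _)).trans (le_max_right _ _)).trans hn
  have m1' : 8 * (k : ℝ) ^ 3 ≤ n := by exact_mod_cast m1
  have m2' : 2 * (k : ℝ) * (40 * k + 39) ≤ n := by exact_mod_cast m2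
  have hs0 : (0 : ℝ) ≤ s := Nat.cast_nonneg s
  have hsn' : ((40 * k + 39) * s : ℝ) ≤ 40 * n := by exact_mod_cast hsn
  by_cases hs : (s : ℝ) < 1 / (4 * (k : ℝ) ^ 3) * n
  · -- small s
    have e1 : 2 * k ^ 3 * (s + 1) ≤ n := by
      have e1 : 2 * (k : ℝ) ^ 3 * (s + 1) ≤ n := by
        have e2 : (s : ℝ) * (4 * (k : ℝ) ^ 3) < n := by
          calc (s : ℝ) * (4 * (k : ℝ) ^ 3) < 1 / (4 * (k : ℝ) ^ 3) * n * (4 * (k : ℝ) ^ 3) := by
                gcongr
            _ = (n : ℝ) := by field_simp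
        nlinarith
      exact_mod_cast e1
    obtain ⟨j, rfl⟩ : ∃ j, k = j + 2 := ⟨k - 2, by omega⟩
    obtain ⟨S, -, h1, h2⟩ := bde_eq j (univ : Finset (Fin n)) F s
      (fun e he => ⟨subset_univ _, hF e he⟩) (by rw [card_univ, Fintype.card_fin]; exact e1)
      (by rw [card_univ, Fintype.card_fin]; exact hC) hM
    exact ⟨S, h1, h2⟩
  push Not at hs
  have hks : (k : ℝ) * (s + 1) ≤ (1 - ξ) * n := by
    have hp : (0 : ℝ) < 40 * k + 39 := by positivity
    have e1 : ξ * (2 * (40 * (k : ℝ) + 39)) = 39 := by rw [hξ]; field_simp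
    have e2 : (k : ℝ) * (s + 1) * (2 * (40 * k + 39)) ≤ (1 - ξ) * n * (2 * (40 * k + 39)) := by
      have e3 : (1 - ξ) * n * (2 * (40 * (k : ℝ) + 39)) = n * (2 * (40 * k + 39)) - 39 * n := by
        linear_combination (-(n : ℝ)) * e1
      rw [e3]
      have e4 : (k : ℝ) * ((40 * k + 39) * s) ≤ k * (40 * n) :=
        mul_le_mul_of_nonneg_left hsn' hk0.le
      nlinarith
    exact le_of_mul_le_mul_right e2 (by positivity)
  have hA := H3 n m4 F hF s hs hsn hC hM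
  exact H2 n m3 F hF s hks hA hC hM

/-- The star side, all `s ≤ (c - e0) n`. -/
def S_STEe : Prop := ∀ k : ℕ, 3 ≤ k → LMW k → ∀ c : ℝ, Crt k c → ∀ e0 : ℝ, 0 < e0 →
  ∃ n0 : ℕ, ∀ n : ℕ, n0 ≤ n → ∀ F : Finset (Finset (Fin n)), Unif k F → ∀ s : ℕ,
    (s : ℝ) ≤ (c - e0) * n → k * (s + 1) ≤ n →
    max (n.choose k - (n - s).choose k) ((k * (s + 1) - 1).choose k) ≤ F.card → ¬ HasM F (s + 1) →
    ∃ S : Finset (Fin n), S.card = s ∧ Cov F S

theorem t_STEe : S_EMCe → S_DIS → S_SFNe → S_STEe := by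
  intro hE hD hS k hk hL c hc e0 he0
  have hk2 : 2 ≤ k := by omega
  have hk0 : (0 : ℝ) < k := by exact_mod_cast (by omega : 0 < k)
  obtain ⟨nE, hE⟩ := hE k hk2
  obtain ⟨γ, hγ, nS, hS⟩ := hS k hk2 (k * e0 / 2) (by positivity)
  obtain ⟨nD, hD⟩ := hD k hk hL c hc (40 / (40 * (k : ℝ) + 39)) e0 γ (by positivity) he0 hγ
  obtain ⟨n1, hn1⟩ := exists_nat_ge (2 / e0)
  refine ⟨max (max nE nS) (max nD n1), ?_⟩
  intro n hn F hF s hs hks hC hM
  have m1 : nE ≤ n := ((le_max_left _ _).trans (le_max_left _ _)).trans hn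
  have m2 : nS ≤ n := ((le_max_right _ _).trans (le_max_left _ _)).trans hn
  have m3 : nD ≤ n := ((le_max_left _ _).trans (le_max_right _ _)).trans hn
  have m4 : n1 ≤ n := ((le_max_right _ _).trans (le_max_right _ _)).trans hn
  have hC1 : n.choose k - (n - s).choose k ≤ F.card := (le_max_left _ _).trans hC
  by_cases hsm : (40 * k + 39) * s ≤ 40 * n
  · exact hE n m1 s hsm F hF hC1 hM
  push Not at hsm
  have hx0 : 40 / (40 * (k : ℝ) + 39) * n ≤ s := by
    have h1 : (40 * (n : ℝ)) ≤ (40 * k + 39) * s := by exact_mod_cast hsm.le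
    rw [div_mul_eq_mul_div, div_le_iff₀ (by positivity)]
    linarith
  have hA := hD n m3 F hF s hx0 hs hks hM hC
  have hn2 : 2 / e0 ≤ (n : ℝ) := hn1.trans (by exact_mod_cast m4)
  have hn3 : 2 ≤ e0 * n := by
    rw [div_le_iff₀ he0] at hn2
    linarith
  have hkc : (k : ℝ) * c < 1 := hc.2.1
  have hn0 : (0 : ℝ) ≤ n := Nat.cast_nonneg n
  have hk3 : (k : ℝ) * (s + 1) ≤ (1 - k * e0 / 2) * n := by
    have h1 : (k : ℝ) * s ≤ k * ((c - e0) * n) := mul_le_mul_of_nonneg_left hs hk0.le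
    have h2 : (k : ℝ) * c * n ≤ 1 * n := mul_le_mul_of_nonneg_right hkc.le hn0
    have h3 : (k : ℝ) * 2 ≤ k * (e0 * n) := mul_le_mul_of_nonneg_left hn3 hk0.le
    nlinarith
  exact hS n m2 F hF s hk3 hA hC1 hM

end Pool.Agent.Run7.h235.EM
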