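import Pool.Agent.Q113.XK.All0
import Pool.Agent.Run7.h235.EM.Star
import Pool.Agent.Run7.h235.EM.Clq

/-!
# The Erdős matching conjecture for `n ≥ n0(k)` and all `s`: the extremal families

Assembly, following `Pool.Agent.Q257.XM.t_XMC`, `Pool.Agent.Q121.XV.t_WSX`, `Pool.Agent.Q121.XV.t_XAX`, with the final
steps on the star side and on the clique side replaced by versions which give the structure of the families of maximal size.
-/

set_option autoImplicit false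

open Finset

namespace Pool.Agent.Run7.h235.EM

open Pool.Agent.Q54.EM Pool.Agent.Q113.XM Pool.Agent.Q113.XU Pool.Agent.Q113.XV
  Pool.Agent.W890.SF Pool.Agent.W593.IR

theorem t_SFNe' : S_SFNe := t_SFNe t_EXT
theorem t_EMCe' : S_EMCe := t_EMCe t_SFNe' t_DIC
theorem t_STEe' : S_STEe := t_STEe t_EMCe' t_DIS t_SFNe'
theorem t_CLQe' : S_CLQe := t_CLQe t_GRE t_HMT

/-- The structure of the extremal families. -/
def Str {n : ℕ} (k s : ℕ) (F : Finset (Finset (Fin n))) : Prop :=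
  (∃ S : Finset (Fin n), S.card = s ∧ Cov F S) ∨
    ∃ H : Finset (Fin n), H.card = k * (s + 1) - 1 ∧ ∀ e ∈ F, e ⊆ H

/-- Outside the window. -/
def S_XMCe : Prop := ∀ k : ℕ, 3 ≤ k → LMW k → ∀ c : ℝ, Crt k c → ∀ ε : ℝ, 0 < ε → ∃ n0 : ℕ,
  ∀ n : ℕ, n0 ≤ n → ∀ s : ℕ, k * (s + 1) ≤ n → ε * n ≤ |(s : ℝ) - c * n| →
  ∀ F : Finset (Finset (Fin n)), Unif k F →
    max (n.choose k - (n - s).choose k) ((k * (s + 1) - 1).choose k) ≤ F.card → ¬ HasM F (s + 1) → Str k s F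

theorem t_XMCe : S_CRF → S_STEe → S_CLQe → S_NCP → S_CLS → S_XMCe := by
  intro hCR hST hCQ hNC hCL k hk hL c hc ε hε
  have hk2 : 2 ≤ k := by omega
  obtain ⟨_, _, h2kc⟩ := hCR k hk2 c hc
  obtain ⟨n1, hST⟩ := hST k hk hL c hc ε hε
  obtain ⟨γ, hγ, n2, hCQ⟩ := hCQ k hk c hc.1 h2kc
  obtain ⟨ξ, hξ, n3, hNC⟩ := hNC k hk2 γ hγ
  obtain ⟨n4, hCL⟩ := hCL k hk2 hL c hc ε ξ γ hε hξ hγ
  refine ⟨max (max n1 n2) (max n3 n4), ?_⟩
  intro n hn s hks hsε F hF hC hM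
  have m1 : n1 ≤ n := ((le_max_left _ _).trans (le_max_left _ _)).trans hn
  have m2 : n2 ≤ n := ((le_max_right _ _).trans (le_max_left _ _)).trans hn
  have m3 : n3 ≤ n := ((le_max_left _ _).trans (le_max_right _ _)).trans hn
  have m4 : n4 ≤ n := ((le_max_right _ _).trans (le_max_right _ _)).trans hn
  have hn0 : (0 : ℝ) ≤ n := Nat.cast_nonneg n
  have hεn : 0 ≤ ε * n := by positivity
  rcases le_abs.1 hsε with h | h
  · -- clique side
    have hcs : c * n ≤ (s : ℝ) := by linarith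
    have hC2 : (k * (s + 1) - 1).choose k ≤ F.card := (le_max_right _ _).trans hC
    obtain ⟨T, hT1, hT2⟩ : ∃ T : Finset (Fin n), (k : ℝ) * s - γ * n ≤ (T.card : ℝ) ∧
        ∀ v ∈ T, (ms k F T v : ℝ) ≤ γ * (n : ℝ) ^ (k - 1) := by
      rcases le_total ((1 - ξ) * n) ((k : ℝ) * s) with h1 | h1
      · exact hNC n m3 F hF s hks h1 hC2
      · exact hCL n m4 F hF s (by linarith) h1 hks hM hC
    exact Or.inr (hCQ n m2 F hF s T hcs hks hT1 hT2 hC2 hM)
  · -- star side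
    exact Or.inl (hST n m1 F hF s (by linarith) hks hC hM)

/-- In the window. -/
def WNDe (k : ℕ) : Prop := ∀ c : ℝ, Crt k c → ∃ ε : ℝ, 0 < ε ∧ ∃ n0 : ℕ,
  ∀ n : ℕ, n0 ≤ n → ∀ s : ℕ, |(s : ℝ) - c * n| ≤ ε * n → k * (s + 1) ≤ n →
  ∀ F : Finset (Finset (Fin n)), Unif k F →
    max (n.choose k - (n - s).choose k) ((k * (s + 1) - 1).choose k) ≤ F.card → ¬ HasM F (s + 1) → Str k s F

theorem t_WSXe : S_CRF → S_SFNe → S_CLQe → ∀ k : ℕ, 3 ≤ k → WSC k → WNDe k := by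
  intro hCRF hSFN hCLQ k hk hW c hc
  obtain ⟨hc0, hc1, -⟩ := id hc
  have h2c := (hCRF k (by omega) c hc).2.2
  have hk0 : (0 : ℝ) < k := by
    have : 0 < k := by omega
    exact_mod_cast this
  -- a smaller density
  obtain ⟨c', hc'0, hc'c, hc'2⟩ : ∃ c' : ℝ, 0 < c' ∧ c' < c ∧ 1 < 2 * ((k : ℝ) * c') ^ (k - 1) := by
    have hcont : Continuous fun x : ℝ => 2 * ((k : ℝ) * x) ^ (k - 1) := by fun_prop
    have h1 : ∀ᶠ x : ℝ in nhds c, 1 < 2 * ((k : ℝ) * x) ^ (k - 1) :=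
      (hcont.tendsto c).eventually (lt_mem_nhds h2c)
    have h2 : ∀ᶠ x : ℝ in nhds c, 0 < x := lt_mem_nhds hc0
    obtain ⟨δ, hδ, hb⟩ := Metric.eventually_nhds_iff.1 (h1.and h2)
    have h3 := @hb (c - δ / 2) (by
      rw [Real.dist_eq, show c - δ / 2 - c = -(δ / 2) by ring, abs_neg, abs_of_pos (by positivity)]
      linarith)
    exact ⟨c - δ / 2, h3.2, by linarith, h3.1⟩
  obtain ⟨ξ, hξ⟩ : ∃ ξ : ℝ, ξ = (1 - k * c) / 2 := ⟨_, rfl⟩
  have hξ0 : 0 < ξ := by rw [hξ]; linarith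
  obtain ⟨γ1, hγ1, n1, hS⟩ := hSFN k (by omega) ξ hξ0
  obtain ⟨γ2, hγ2, n2, hQ⟩ := hCLQ k hk c' hc'0 hc'2
  obtain ⟨ε, hε, n3, hWS⟩ := hW c hc (min γ1 γ2) (lt_min hγ1 hγ2)
  obtain ⟨ε', hε'⟩ : ∃ ε' : ℝ, ε' = min ε (min (c - c') (ξ / (2 * k))) := ⟨_, rfl⟩
  have hε'0 : 0 < ε' := by
    rw [hε']
    exact lt_min hε (lt_min (by linarith) (by positivity))
  have hle1 : ε' ≤ ε := by rw [hε']; exact min_le_left _ _
  have hle2 : ε' ≤ c - c' := by
    rw [hε']; exact (min_le_right _ _).trans (min_le_left _ _)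
  have hle3 : k * ε' ≤ ξ / 2 := by
    have : ε' ≤ ξ / (2 * k) := by
      rw [hε']; exact (min_le_right _ _).trans (min_le_right _ _)
    rw [le_div_iff₀ (by positivity)] at this
    linarith
  obtain ⟨n4, hn4⟩ := exists_nat_ge (2 * k / ξ)
  refine ⟨ε', hε'0, max (max n1 n2) (max n3 n4), fun n hn s hs hks F hF hmax hno => ?_⟩
  have g1 : n1 ≤ n := (le_max_left _ _).trans ((le_max_left _ _).trans hn)
  have g2 : n2 ≤ n := (le_max_right _ _).trans ((le_max_left _ _).trans hn)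
  have g3 : n3 ≤ n := (le_max_left _ _).trans ((le_max_right _ _).trans hn)
  have g4 : n4 ≤ n := (le_max_right _ _).trans ((le_max_right _ _).trans hn)
  have hn0 : (0 : ℝ) ≤ n := Nat.cast_nonneg n
  have habs := abs_le.1 hs
  rcases hWS n g3 F hF s (hs.trans (mul_le_mul_of_nonneg_right hle1 hn0)) hks hno hmax with
    h | ⟨T, hT1, hT2⟩
  · refine Or.inl (hS n g1 F hF s ?_ ?_ ((le_max_left _ _).trans hmax) hno)
    · -- `k (s+1) ≤ (1-ξ) n`
      have h4 : 2 * (k : ℝ) / ξ ≤ n := hn4.trans (by exact_mod_cast g4)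
      rw [div_le_iff₀ hξ0] at h4
      have h5 : (s : ℝ) ≤ (c + ε') * n := by linarith [habs.2]
      have h6 : (k : ℝ) * s ≤ k * ((c + ε') * n) := mul_le_mul_of_nonneg_left h5 hk0.le
      have h7 : (k : ℝ) * ((c + ε') * n) = (k * c) * n + (k * ε') * n := by ring
      have h8 : (k * ε') * n ≤ ξ / 2 * n := mul_le_mul_of_nonneg_right hle3 hn0
      have h9 : (k : ℝ) * c = 1 - 2 * ξ := by rw [hξ]; ring
      rw [h7, h9] at h6
      nlinarith
    · have h1 : (s : ℝ) - γ1 * n ≤ s - min γ1 γ2 * n := by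
        have := mul_le_mul_of_nonneg_right (min_le_left γ1 γ2) hn0
        linarith
      refine h1.trans (h.trans ?_)
      have hsub : (univ.filter (fun v : Fin n =>
          (1 - min γ1 γ2) * (((n - 1).choose (k - 1) : ℕ) : ℝ) ≤ (dg F v : ℝ))) ⊆
          univ.filter (fun v : Fin n =>
          (1 - γ1) * (((n - 1).choose (k - 1) : ℕ) : ℝ) ≤ (dg F v : ℝ)) := by
        intro v hv
        rw [Finset.mem_filter] at hv ⊢
        refine ⟨hv.1, le_trans ?_ hv.2⟩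
        refine mul_le_mul_of_nonneg_right ?_ (Nat.cast_nonneg _)
        linarith [min_le_left γ1 γ2]
      exact_mod_cast Finset.card_le_card hsub
  · refine Or.inr (hQ n g2 F hF s T ?_ hks ?_ (fun v hv => (hT2 v hv).trans ?_)
      ((le_max_right _ _).trans hmax) hno)
    · have h5 : (c - ε') * n ≤ (s : ℝ) := by linarith [habs.1]
      refine le_trans (mul_le_mul_of_nonneg_right (by linarith) hn0) h5
    · refine le_trans ?_ hT1
      have := mul_le_mul_of_nonneg_right (min_le_right γ1 γ2) hn0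
      linarith
    · exact mul_le_mul_of_nonneg_right (min_le_right _ _) (by positivity)

/-- The structure of the extremal families for large `n`. -/
theorem str_all (k : ℕ) (hk : 3 ≤ k) : ∃ n0 : ℕ, ∀ n : ℕ, n0 ≤ n → ∀ s : ℕ, k * (s + 1) ≤ n →
    ∀ F : Finset (Finset (Fin n)), Unif k F → ¬ HasM F (s + 1) →
      max (n.choose k - (n - s).choose k) ((k * (s + 1) - 1).choose k) ≤ F.card → Str k s F := by
  obtain ⟨c, hc, -⟩ := t_CRU k (by omega)
  obtain ⟨ε, hε, n1, h1⟩ := t_WSXe t_CRF t_SFNe' t_CLQe' k hk (Pool.Agent.Q113.XK.wsc k hk) c hc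
  obtain ⟨n2, h2⟩ := t_XMCe t_CRF t_STEe' t_CLQe' t_NCP t_CLS k hk (t_LMWk k (by omega)) c hc ε hε
  refine ⟨max n1 n2, fun n hn s hs F hF hno hmax => ?_⟩
  rcases le_total (|(s : ℝ) - c * n|) (ε * n) with h | h
  · exact h1 n ((le_max_left _ _).trans hn) s h hs F hF hmax hno
  · exact h2 n ((le_max_right _ _).trans hn) s hs h F hF hmax hno

end Pool.Agent.Run7.h235.EM
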