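import Pool.Agent.W451.SAM.BDE

/-!
# Small matchings: the families of extremal size have a cover of size `s`
-/

set_option autoImplicit false

open Finset

namespace Pool.Agent.Run7.h235.EM

open Pool.Agent.W890.SF Pool.Agent.W451.SAM

/-- strict form of `numK` -/
lemma numK' (j s u : ℕ) (hs : 1 ≤ s) (hu : 2 * (j + 2) ^ 3 * (s + 1) ≤ u) :
    (j + 2) ^ 2 * s * (u - 2).choose j < (u - s).choose (j + 1) := by
  have hk : (j + 2) ^ 3 = (j + 2) ^ 2 * (j + 2) := by ring
  have hk2 : 4 ≤ (j + 2) ^ 2 := by nlinarith
  have hu1 : 2 * ((s - 1) * j) ≤ u - 2 := by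
    obtain ⟨s', rfl⟩ : ∃ s', s = s' + 1 := ⟨s - 1, by omega⟩
    have : 2 * (s' * j) + 2 ≤ u := by
      nlinarith [Nat.zero_le (s' * j), Nat.zero_le s', Nat.zero_le j,
        Nat.mul_le_mul_right ((j + 2) * (s' + 2)) hk2]
    simp only [Nat.add_sub_cancel]
    omega
  have h1 := half (u - 2) j (s - 1) hu1
  have h2 : u - 2 - (s - 1) = u - s - 1 := by omega
  rw [h2] at h1
  have hus : s + 1 ≤ u := by
    have h1 : 1 ≤ 2 * (j + 2) ^ 3 := by rw [hk]; nlinarith
    have h2 : 1 * (s + 1) ≤ 2 * (j + 2) ^ 3 * (s + 1) := Nat.mul_le_mul_right _ h1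
    omega
  obtain ⟨m, hm⟩ : ∃ m, u - s = m + 1 := ⟨u - s - 1, by omega⟩
  have h3 := Nat.add_one_mul_choose_eq m j
  have h4 : u - s - 1 = m := by omega
  rw [h4] at h1
  rw [hm]
  have hu' : u = m + 1 + s := by omega
  have h5 : 2 * ((j + 2) ^ 2 * s) * (j + 1) < m + 1 := by
    nlinarith [Nat.zero_le ((j + 2) ^ 2 * s), Nat.zero_le ((j + 2) ^ 2 * j)]
  have hjm : j ≤ m := by
    have : 1 * (j + 1) ≤ 2 * ((j + 2) ^ 2 * s) * (j + 1) := by
      apply Nat.mul_le_mul_right
      nlinarith
    omega
  have hB : 0 < m.choose j := Nat.choose_pos hjm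
  set A := (m + 1).choose (j + 1)
  set B := m.choose j
  have h6 : (j + 2) ^ 2 * s * (u - 2).choose j * (j + 1) < A * (j + 1) := by
    calc (j + 2) ^ 2 * s * (u - 2).choose j * (j + 1)
        ≤ (j + 2) ^ 2 * s * (2 * B) * (j + 1) :=
          Nat.mul_le_mul_right _ (Nat.mul_le_mul_left _ h1)
      _ = (2 * ((j + 2) ^ 2 * s) * (j + 1)) * B := by ring
      _ < (m + 1) * B := Nat.mul_lt_mul_of_pos_right h5 hB
      _ = A * (j + 1) := h3
  exact Nat.lt_of_mul_lt_mul_right h6

variable {α : Type} [DecidableEq α]

/-- **Bollobás–Daykin–Erdős with the structure of the extremal families.** -/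
theorem bde_eq (j : ℕ) (U : Finset α) (F : Finset (Finset α)) (s : ℕ)
    (hF : ∀ e ∈ F, e ⊆ U ∧ e.card = j + 2) (hu : 2 * (j + 2) ^ 3 * (s + 1) ≤ U.card)
    (hc : U.card.choose (j + 2) - (U.card - s).choose (j + 2) ≤ F.card)
    (hno : ¬ HasM F (s + 1)) :
    ∃ S ⊆ U, S.card = s ∧ ∀ e ∈ F, ¬ Disjoint e S := by
  classical
  induction s generalizing U F with
  | zero =>
    refine ⟨∅, empty_subset _, rfl, ?_⟩
    intro e he
    exfalso
    apply hno
    refine ⟨{e}, by simpa using he, ?_, by simp⟩
    intro f hf f' hf' hne
    rw [Finset.mem_singleton] at hf hf'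
    exact absurd (hf.trans hf'.symm) hne
  | succ s ih =>
    have hk3 : 8 ≤ (j + 2) ^ 3 := by
      calc 8 = 2 ^ 3 := by norm_num
        _ ≤ (j + 2) ^ 3 := Nat.pow_le_pow_left (by omega) 3
    have husz : s + 2 ≤ U.card := by nlinarith
    by_cases hA : ∃ v ∈ U, (j + 2) * (s + 1) * (U.card - 2).choose j < dg F v
    · obtain ⟨v, hv, hdv⟩ := hA
      obtain ⟨F', hF'⟩ : ∃ F', F' = F.filter (fun e => v ∉ e) := ⟨_, rfl⟩
      have hcard : F'.card + dg F v = F.card := by
        rw [hF']
        unfold dg
        rw [add_comm]
        exact Finset.card_filter_add_card_filter_not (fun e => v ∈ e)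
      have hUe : (U.erase v).card = U.card - 1 := Finset.card_erase_of_mem hv
      have hno' : ¬ HasM F' (s + 1) := by
        rintro ⟨M, hMF, hM, hMc⟩
        apply hno
        obtain ⟨W, hW⟩ : ∃ W, W = M.biUnion id := ⟨_, rfl⟩
        have hWc : W.card ≤ (j + 2) * (s + 1) := by
          calc W.card ≤ M.card * (j + 2) := by
                rw [hW]
                apply Finset.card_biUnion_le_card_mul
                intro e he
                have := hMF he
                rw [hF', Finset.mem_filter] at this
                exact (hF e this.1).2.le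
            _ = (j + 2) * (s + 1) := by rw [hMc]; ring
        have hWU : ∀ w ∈ W, w ∈ U ∧ v ≠ w := by
          intro w hw
          rw [hW, Finset.mem_biUnion] at hw
          obtain ⟨e, he, hwe⟩ := hw
          have := hMF he
          rw [hF', Finset.mem_filter] at this
          refine ⟨(hF e this.1).1 hwe, ?_⟩
          rintro rfl
          exact this.2 hwe
        have hex : ∃ e ∈ F, v ∈ e ∧ Disjoint e W := by
          by_contra hno
          push Not at hno
          have hsub : F.filter (fun e => v ∈ e) ⊆
              W.biUnion (fun w => F.filter (fun e => v ∈ e ∧ w ∈ e)) := by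
            intro e he
            rw [Finset.mem_filter] at he
            have h1 := hno e he.1 he.2
            rw [Finset.not_disjoint_iff] at h1
            obtain ⟨w, hwe, hwW⟩ := h1
            rw [Finset.mem_biUnion]
            exact ⟨w, hwW, Finset.mem_filter.mpr ⟨he.1, he.2, hwe⟩⟩
          have h2 : dg F v ≤ W.card * (U.card - 2).choose j := by
            unfold dg
            refine (Finset.card_le_card hsub).trans ?_
            apply Finset.card_biUnion_le_card_mul
            intro w hw
            obtain ⟨a, b⟩ := hWU w hw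
            have h3 := cod_le U F (j + 2) hF v w hv a b
            simpa using h3
          have h4 : W.card * (U.card - 2).choose j ≤ (j + 2) * (s + 1) * (U.card - 2).choose j :=
            Nat.mul_le_mul_right _ hWc
          omega
        obtain ⟨e, heF, hve, hdis⟩ := hex
        have := hasM_ins hM (fun f hf => by
          have := hMF hf
          rw [hF'] at this
          exact Finset.mem_of_mem_filter f this) e heF ⟨v, hve⟩ (by rw [← hW]; exact hdis)
        rw [hMc] at this
        exact this
      obtain ⟨S, hSU, hSc, hS⟩ := ih (U.erase v) F'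
        (by
          intro e he
          rw [hF', Finset.mem_filter] at he
          obtain ⟨h1, h2⟩ := hF e he.1
          exact ⟨Finset.subset_erase.mpr ⟨h1, he.2⟩, h2⟩)
        (by
          rw [hUe]
          have : 2 * (j + 2) ^ 3 * (s + 1 + 1) = 2 * (j + 2) ^ 3 * (s + 1) + 2 * (j + 2) ^ 3 := by
            ring
          omega)
        (by
          rw [hUe]
          have hdle := dg_le U F (j + 2) hF v hv
          have h1 : (j + 2) - 1 = j + 1 := by omega
          rw [h1] at hdle
          obtain ⟨m, hm⟩ : ∃ m, U.card = m + 1 := ⟨U.card - 1, by omega⟩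
          rw [hm] at hc hdle ⊢
          simp only [Nat.add_sub_cancel] at hdle ⊢
          have h2 : m + 1 - (s + 1) = m - s := by omega
          rw [h2, Nat.choose_succ_succ] at hc
          simp only [Nat.succ_eq_add_one] at hc
          have h3 : (m - s).choose (j + 2) ≤ m.choose (j + 2) := Nat.choose_le_choose _ (by omega)
          have h4 : j + 1 + 1 = j + 2 := rfl
          rw [h4] at hc
          omega) hno'
      refine ⟨insert v S, ?_, ?_, ?_⟩
      · intro x hx
        rw [mem_insert] at hx
        rcases hx with rfl | hx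
        · exact hv
        · exact mem_of_mem_erase (hSU hx)
      · rw [card_insert_of_notMem, hSc]
        intro hvS
        exact notMem_erase v U (hSU hvS)
      · intro e he
        by_cases hve : v ∈ e
        · rw [not_disjoint_iff]
          exact ⟨v, hve, mem_insert_self _ _⟩
        · have h1 := hS e (by rw [hF', mem_filter]; exact ⟨he, hve⟩)
          intro hd
          exact h1 (disjoint_of_subset_right (subset_insert _ _) hd)
    · exfalso
      push Not at hA
      obtain ⟨M, hMm, hMmax⟩ := Finset.exists_max_image (F.powerset.filter (fun M => Mtch M))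
        Finset.card ⟨∅, by
          rw [Finset.mem_filter]
          refine ⟨Finset.empty_mem_powerset _, ?_⟩
          intro e he
          exact absurd he (Finset.notMem_empty e)⟩
      rw [Finset.mem_filter, Finset.mem_powerset] at hMm
      obtain ⟨hMF, hM⟩ := hMm
      have hMs : M.card ≤ s + 1 := by
        by_contra hlt
        push Not at hlt
        obtain ⟨M', hM', hM'c⟩ := Finset.exists_subset_card_eq (s := M) (n := s + 1 + 1) (by omega)
        exact hno ⟨M', hM'.trans hMF, mtch_sub hM hM', hM'c⟩
      obtain ⟨W, hW⟩ : ∃ W, W = M.biUnion id := ⟨_, rfl⟩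
      have hWc : W.card ≤ (j + 2) * (s + 1) := by
        calc W.card ≤ M.card * (j + 2) := by
              rw [hW]
              apply Finset.card_biUnion_le_card_mul
              intro e he
              exact (hF e (hMF he)).2.le
          _ ≤ (s + 1) * (j + 2) := Nat.mul_le_mul_right _ hMs
          _ = (j + 2) * (s + 1) := by ring
      have hmeet : ∀ e ∈ F, ¬ Disjoint e W := by
        intro e he hdis
        have hne : e.Nonempty := by
          rw [← Finset.card_pos, (hF e he).2]
          omega
        obtain ⟨M', h1, h2, h3⟩ := hasM_ins hM hMF e he hne (by rw [← hW]; exact hdis)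
        have h4 := hMmax M' (Finset.mem_filter.mpr ⟨Finset.mem_powerset.mpr h1, h2⟩)
        omega
      have hsub : F ⊆ W.biUnion (fun w => F.filter (fun e => w ∈ e)) := by
        intro e he
        have h1 := hmeet e he
        rw [Finset.not_disjoint_iff] at h1
        obtain ⟨w, hwe, hwW⟩ := h1
        rw [Finset.mem_biUnion]
        exact ⟨w, hwW, Finset.mem_filter.mpr ⟨he, hwe⟩⟩
      have h1 : F.card ≤ W.card * ((j + 2) * (s + 1) * (U.card - 2).choose j) := by
        refine (Finset.card_le_card hsub).trans ?_
        apply Finset.card_biUnion_le_card_mul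
        intro w hw
        rw [hW, Finset.mem_biUnion] at hw
        obtain ⟨e, he, hwe⟩ := hw
        exact hA w ((hF e (hMF he)).1 hwe)
      have h2 : F.card ≤ ((j + 2) * (s + 1)) * ((j + 2) * (s + 1) * (U.card - 2).choose j) :=
        h1.trans (Nat.mul_le_mul_right _ hWc)
      have h3 := numK' j (s + 1) U.card (by omega) hu
      have h4 := tel2 (U.card - (s + 1)) (j + 1) (s + 1)
      have h5 : U.card - (s + 1) + (s + 1) = U.card := by omega
      rw [h5] at h4
      have h6 : ((j + 2) * (s + 1)) * ((j + 2) * (s + 1) * (U.card - 2).choose j) =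
          (s + 1) * ((j + 2) ^ 2 * (s + 1) * (U.card - 2).choose j) := by ring
      have h7 : (s + 1) * ((j + 2) ^ 2 * (s + 1) * (U.card - 2).choose j) <
          (s + 1) * (U.card - (s + 1)).choose (j + 1) := Nat.mul_lt_mul_of_pos_left h3 (by omega)
      have h8 : j + 1 + 1 = j + 2 := rfl
      rw [h8] at h4
      omega

end Pool.Agent.Run7.h235.EM
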